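import Pool.Agent.Helper83.L4.Win

/-! The (2:2) Maker-Breaker game for aligned rectangle lattices: Breaker wins above the lower bound
`√2 · √(log₂ N)`. -/

set_option autoImplicit false

namespace Pool.Agent.Results.MP_d62fe1_co.AlignedLattices

open Finset

/-- The board `[N]²`. -/
noncomputable def board (N : ℕ) : Finset (ℤ × ℤ) := Icc (1 : ℤ) N ×ˢ Icc (1 : ℤ) N

/-- `L` is a `q × q` aligned rectangle lattice `{P + i u + j v : 0 ≤ i, j ≤ q - 1}` with
`u = (d, 0)`, `v = (0, e)` and `d, e ≥ 1`. -/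
def IsAlignedLattice (q : ℕ) (L : Set (ℤ × ℤ)) : Prop :=
  ∃ (P : ℤ × ℤ) (d e : ℤ), 1 ≤ d ∧ 1 ≤ e ∧
    L = {x | ∃ i j : ℕ, i < q ∧ j < q ∧
      x = P + (i : ℤ) • ((d, 0) : ℤ × ℤ) + (j : ℤ) • ((0, e) : ℤ × ℤ)}

/-- `D` is a legal move on the board `S` when Maker owns `M` and Breaker owns `B`: two unclaimed
points, all unclaimed points if fewer than two remain. -/
def IsMove (S M B D : Finset (ℤ × ℤ)) : Prop :=
  D ⊆ S \ (M ∪ B) ∧ D.card = min 2 (S \ (M ∪ B)).card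

/-- `M k` and `B k` are the points of Maker and of Breaker after `k` rounds of a play of the (2:2)
game on the board `S`, Maker first, in which Breaker follows the strategy `σ`. -/
structure IsPlay (S : Finset (ℤ × ℤ))
    (σ : Finset (ℤ × ℤ) → Finset (ℤ × ℤ) → Finset (ℤ × ℤ)) (M B : ℕ → Finset (ℤ × ℤ)) : Prop where
  startMaker : M 0 = ∅
  startBreaker : B 0 = ∅
  maker : ∀ k, ∃ D, IsMove S (M k) (B k) D ∧ M (k + 1) = M k ∪ D
  breaker : ∀ k, B (k + 1) = B k ∪ σ (M (k + 1)) (B k)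

/-- In the (2:2) game on the board `S`, Maker first, Breaker has a strategy (depending only on the
two sets of claimed points) such that Maker never owns all points of a member of `F`. -/
def BreakerPrevents (S : Finset (ℤ × ℤ)) (F : Set (Set (ℤ × ℤ))) : Prop :=
  ∃ σ : Finset (ℤ × ℤ) → Finset (ℤ × ℤ) → Finset (ℤ × ℤ),
    (∀ M B, M ⊆ S → B ⊆ S → Disjoint M B → IsMove S M B (σ M B)) ∧
    ∀ M B, IsPlay S σ M B → ∀ k, ∀ L ∈ F, ¬ L ⊆ (M k : Set (ℤ × ℤ))

private theorem prevents (N q : ℕ) (hN : 1 ≤ N)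
    (hq : Real.sqrt 2 * Real.sqrt (Real.logb 2 (N : ℝ)) +
      3000 * Real.sqrt (Real.sqrt (Real.logb 2 (N : ℝ))) + 10 ^ 11 ≤ (q : ℝ)) :
    BreakerPrevents (board N) {L | IsAlignedLattice q L} := by
  have hq2 : 2 ≤ q :=
    Pool.Agent.Helper83.L4.two_le_of (Real.sqrt_nonneg 2) (Real.sqrt_nonneg _) hq
  obtain ⟨s, hS, hA⟩ := Pool.Agent.Helper83.L4.winA N q hN hq
  obtain ⟨σ, h1, h2⟩ := Pool.Agent.Helper83.L4.strat_of_sys s
    (fun X => ∃ L : Set (ℤ × ℤ), IsAlignedLattice q L ∧ L ⊆ (X : Set (ℤ × ℤ))) (by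
      rintro X hX ⟨L, ⟨P, d, e, hd, he, rfl⟩, hL⟩
      have hmem : ∀ i j : ℕ, i < q → j < q → (P.1 + (i : ℤ) * d, P.2 + (j : ℤ) * e) ∈ X := by
        intro i j hi hj
        have h3 := hL ⟨i, j, hi, hj, rfl⟩
        rw [Finset.mem_coe] at h3
        have h4 : P + (i : ℤ) • ((d, 0) : ℤ × ℤ) + (j : ℤ) • ((0, e) : ℤ × ℤ) =
            (P.1 + (i : ℤ) * d, P.2 + (j : ℤ) * e) := by
          refine Prod.ext ?_ ?_ <;> simp
        rwa [h4] at h3
      have hbox : ∀ i j : ℕ, i < q → j < q → (1 ≤ P.1 + (i : ℤ) * d ∧ P.1 + (i : ℤ) * d ≤ N) ∧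
          (1 ≤ P.2 + (j : ℤ) * e ∧ P.2 + (j : ℤ) * e ≤ N) := by
        intro i j hi hj
        have h3 := hX (hmem i j hi hj)
        rw [hS] at h3
        unfold Pool.Agent.Helper83.L4.brd at h3
        rw [mem_product, mem_Icc, mem_Icc] at h3
        exact h3
      have e00 := hbox 0 0 (by omega) (by omega)
      have e11 := hbox 1 1 (by omega) (by omega)
      simp only [Nat.cast_zero, Nat.cast_one, zero_mul, one_mul, add_zero] at e00 e11
      have i1 : ((P.1, d) : ℤ × ℤ) ∈ Pool.Agent.Helper83.L4.Ix N q := by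
        unfold Pool.Agent.Helper83.L4.Ix
        rw [mem_filter, mem_product, mem_Icc, mem_Icc]
        refine ⟨⟨⟨e00.1.1, e00.1.2⟩, hd, by omega⟩, ?_⟩
        intro x hx
        obtain ⟨i, hi, rfl⟩ := Pool.Agent.Helper83.L4.mem_ap.mp hx
        rw [mem_Icc]
        exact (hbox i 0 hi (by omega)).1
      have i2 : ((P.2, e) : ℤ × ℤ) ∈ Pool.Agent.Helper83.L4.Ix N q := by
        unfold Pool.Agent.Helper83.L4.Ix
        rw [mem_filter, mem_product, mem_Icc, mem_Icc]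
        refine ⟨⟨⟨e00.2.1, e00.2.2⟩, he, by omega⟩, ?_⟩
        intro x hx
        obtain ⟨i, hi, rfl⟩ := Pool.Agent.Helper83.L4.mem_ap.mp hx
        rw [mem_Icc]
        exact (hbox 0 i (by omega) hi).2
      refine ⟨(⟨(P.1, d), i1⟩, ⟨(P.2, e), i2⟩), ?_⟩
      rw [hA]
      intro x hx
      unfold Pool.Agent.Helper83.L4.lt2 at hx
      obtain ⟨hx1, hx2⟩ := mem_product.mp hx
      obtain ⟨i, hi, ei⟩ := Pool.Agent.Helper83.L4.mem_ap.mp hx1
      obtain ⟨j, hj, ej⟩ := Pool.Agent.Helper83.L4.mem_ap.mp hx2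
      have h5 := hmem i j hi hj
      have h6 : x = (P.1 + (i : ℤ) * d, P.2 + (j : ℤ) * e) := Prod.ext ei.symm ej.symm
      rw [h6]
      exact h5)
  have hSb : s.S = board N := hS
  rw [hSb] at h1 h2
  refine ⟨σ, h1, ?_⟩
  intro M B hP k L hL hLM
  refine h2 M B hP.startMaker hP.startBreaker ?_ k ⟨L, hL, hLM⟩
  intro k
  obtain ⟨D, ⟨hD1, hD2⟩, hD3⟩ := hP.maker k
  have hdis : Disjoint D (M k) := by
    rw [Finset.disjoint_left]
    intro a ha hb
    exact (mem_sdiff.mp (hD1 ha)).2 (mem_union_left _ hb)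
  have hD4 : M (k + 1) \ M k = D := by
    rw [hD3, Finset.union_sdiff_left, Finset.sdiff_eq_self_of_disjoint hdis]
  refine ⟨?_, ?_, ?_, hP.breaker k⟩
  · rw [hD3]; exact subset_union_left
  · rw [hD4]; exact hD1
  · rw [hD4]; exact hD2

/-- For every `c > √2` and all large `N`, Breaker can prevent Maker from owning a `q × q` aligned
rectangle lattice, `q = ⌊c √(log₂ N)⌋`, in the (2:2) game on `[N]²`.  Moreover this holds for every
`N ≥ 1` and every `q ≥ √2 √(log₂ N) + 3000 (log₂ N)^(1/4) + 10^11`. -/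
theorem result :
    (∀ c : ℝ, Real.sqrt 2 < c → ∃ N₀ : ℕ, ∀ N : ℕ, N₀ ≤ N →
      BreakerPrevents (board N)
        {L | IsAlignedLattice ⌊c * Real.sqrt (Real.logb 2 (N : ℝ))⌋₊ L}) ∧
    (∀ N q : ℕ, 1 ≤ N →
      Real.sqrt 2 * Real.sqrt (Real.logb 2 (N : ℝ)) +
        3000 * Real.sqrt (Real.sqrt (Real.logb 2 (N : ℝ))) + 10 ^ 11 ≤ (q : ℝ) →
      BreakerPrevents (board N) {L | IsAlignedLattice q L}) := by
  refine ⟨fun c hc => ?_, prevents⟩
  obtain ⟨N0, hN0⟩ := Pool.Agent.Helper83.L4.eventually_q (Real.sqrt 2) c hc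
  exact ⟨N0, fun N hN => prevents N _ (hN0 N hN).1 (hN0 N hN).2⟩

end Pool.Agent.Results.MP_d62fe1_co.AlignedLattices
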