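import Pool.Agent.Helper83.L4.Win

/-! The (2:2) Maker-Breaker game for parallelogram lattices: Breaker wins above the lower bound
`2 √(log₂ N)`. -/

set_option autoImplicit false

namespace Pool.Agent.Results.MP_d62fe1_co.ParallelogramLattices

open Finset

/-- The board `[N]²`. -/
noncomputable def board (N : ℕ) : Finset (ℤ × ℤ) := Icc (1 : ℤ) N ×ˢ Icc (1 : ℤ) N

/-- `L` is a `q × q` parallelogram lattice `{P + i u + j v : 0 ≤ i, j ≤ q - 1}` with `u`, `v`
linearly independent. -/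
def IsParallelogramLattice (q : ℕ) (L : Set (ℤ × ℤ)) : Prop :=
  ∃ P u v : ℤ × ℤ, LinearIndependent ℤ ![u, v] ∧
    L = {x | ∃ i j : ℕ, i < q ∧ j < q ∧ x = P + (i : ℤ) • u + (j : ℤ) • v}

/-- `D` is a legal move on the board `S` when Maker owns `M` and Breaker owns `B`: two unclaimed
points, all unclaimed points if fewer than two remain. -/
def IsMove (S M B D : Finset (ℤ × ℤ)) : Prop :=
  D ⊆ S \ (M ∪ B) ∧ D.card = min 2 (S \ (M ∪ B)).card

/-- `M k` and `B k` are the points of Maker and of Breaker after `k` rounds of a play of the (2:2)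
game on the board `S`, Maker first, in which Breaker follows the strategy `σ`. -/
structure IsPlay (S : Finset (ℤ × ℤ))
    (σ : Finset (ℤ × ℤ) → Finset (ℤ × ℤ) → Finset (ℤ × ℤ)) (M B : ℕ → Finset (ℤ × ℤ)) : Prop where
  startMaker : M 0 = ∅
  startBreaker : B 0 = ∅
  maker : ∀ k, ∃ D, IsMove S (M k) (B k) D ∧ M (k + 1) = M k ∪ D
  breaker : ∀ k, B (k + 1) = B k ∪ σ (M (k + 1)) (B k)

/-- In the (2:2) game on the board `S`, Maker first, Breaker has a strategy (depending only on the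
two sets of claimed points) such that Maker never owns all points of a member of `F`. -/
def BreakerPrevents (S : Finset (ℤ × ℤ)) (F : Set (Set (ℤ × ℤ))) : Prop :=
  ∃ σ : Finset (ℤ × ℤ) → Finset (ℤ × ℤ) → Finset (ℤ × ℤ),
    (∀ M B, M ⊆ S → B ⊆ S → Disjoint M B → IsMove S M B (σ M B)) ∧
    ∀ M B, IsPlay S σ M B → ∀ k, ∀ L ∈ F, ¬ L ⊆ (M k : Set (ℤ × ℤ))

private theorem det_ne {u v : ℤ × ℤ} (h : LinearIndependent ℤ ![u, v]) :
    u.1 * v.2 - u.2 * v.1 ≠ 0 := by
  intro h0
  rw [LinearIndependent.pair_iff] at h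
  have h1 := h v.2 (-u.2) (by
    refine Prod.ext ?_ ?_
    · simp only [Prod.fst_add, Prod.smul_fst, smul_eq_mul, Prod.fst_zero]
      linarith
    · simp only [Prod.snd_add, Prod.smul_snd, smul_eq_mul, Prod.snd_zero]
      ring)
  have h2 := h v.1 (-u.1) (by
    refine Prod.ext ?_ ?_
    · simp only [Prod.fst_add, Prod.smul_fst, smul_eq_mul, Prod.fst_zero]
      ring
    · simp only [Prod.snd_add, Prod.smul_snd, smul_eq_mul, Prod.snd_zero]
      linarith)
  have hu : u = 0 := Prod.ext (by simpa using h2.2) (by simpa using h1.2)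
  have h3 := h 1 0 (by rw [hu]; simp)
  exact one_ne_zero h3.1

private theorem prevents (N q : ℕ) (hN : 1 ≤ N)
    (hq : 2 * Real.sqrt (Real.logb 2 (N : ℝ)) +
      3000 * Real.sqrt (Real.sqrt (Real.logb 2 (N : ℝ))) + 10 ^ 11 ≤ (q : ℝ)) :
    BreakerPrevents (board N) {L | IsParallelogramLattice q L} := by
  have hq2 : 2 ≤ q :=
    Pool.Agent.Helper83.L4.two_le_of (by norm_num : (0 : ℝ) ≤ 2) (Real.sqrt_nonneg _) hq
  obtain ⟨s, hS, hA⟩ := Pool.Agent.Helper83.L4.winP N q hN hq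
  obtain ⟨σ, h1, h2⟩ := Pool.Agent.Helper83.L4.strat_of_sys s
    (fun X => ∃ L : Set (ℤ × ℤ), IsParallelogramLattice q L ∧ L ⊆ (X : Set (ℤ × ℤ))) (by
      rintro X hX ⟨L, ⟨P, u, v, huv, rfl⟩, hL⟩
      have hd := det_ne huv
      have hmem : ∀ i j : ℕ, i < q → j < q → P + (i : ℤ) • u + (j : ℤ) • v ∈ X := by
        intro i j hi hj
        have h3 := hL ⟨i, j, hi, hj, rfl⟩
        rwa [Finset.mem_coe] at h3
      rw [hS] at hX
      have hsub : Pool.Agent.Helper32.Lat.lat q (P, u, v) ⊆ X := by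
        intro x hx
        unfold Pool.Agent.Helper32.Lat.lat at hx
        rw [mem_image] at hx
        obtain ⟨ij, hij, rfl⟩ := hx
        rw [mem_product, mem_range, mem_range] at hij
        exact hmem ij.1 ij.2 hij.1 hij.2
      have h00 := hX (hmem 0 0 (by omega) (by omega))
      have h10 := hX (hmem 1 0 (by omega) (by omega))
      have h01 := hX (hmem 0 1 (by omega) (by omega))
      simp only [Nat.cast_zero, Nat.cast_one, zero_smul, one_smul, add_zero] at h00 h10 h01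
      unfold Pool.Agent.Helper32.Lat.board at h00 h10 h01
      rw [mem_product, mem_Icc, mem_Icc] at h00 h10 h01
      obtain ⟨⟨a1, a2⟩, a3, a4⟩ := h00
      obtain ⟨⟨b1, b2⟩, b3, b4⟩ := h10
      obtain ⟨⟨c1, c2⟩, c3, c4⟩ := h01
      simp only [Prod.fst_add, Prod.snd_add] at b1 b2 b3 b4 c1 c2 c3 c4
      have hI : (P, u, v) ∈ Pool.Agent.Helper32.Lat.Idx N q := by
        unfold Pool.Agent.Helper32.Lat.Idx
        rw [mem_filter, mem_product, mem_product, mem_product, mem_product]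
        refine ⟨⟨?_, ⟨?_, ?_⟩, ?_, ?_⟩, hd, hsub.trans hX⟩
        · unfold Pool.Agent.Helper32.Lat.board
          rw [mem_product, mem_Icc, mem_Icc]
          exact ⟨⟨a1, a2⟩, a3, a4⟩
        all_goals
          rw [mem_Icc]
          constructor <;> dsimp only <;> linarith
      refine ⟨⟨(P, u, v), hI⟩, ?_⟩
      rw [hA]
      exact hsub)
  have hSb : s.S = board N := hS
  rw [hSb] at h1 h2
  refine ⟨σ, h1, ?_⟩
  intro M B hP k L hL hLM
  refine h2 M B hP.startMaker hP.startBreaker ?_ k ⟨L, hL, hLM⟩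
  intro k
  obtain ⟨D, ⟨hD1, hD2⟩, hD3⟩ := hP.maker k
  have hdis : Disjoint D (M k) := by
    rw [Finset.disjoint_left]
    intro a ha hb
    exact (mem_sdiff.mp (hD1 ha)).2 (mem_union_left _ hb)
  have hD4 : M (k + 1) \ M k = D := by
    rw [hD3, Finset.union_sdiff_left, Finset.sdiff_eq_self_of_disjoint hdis]
  refine ⟨?_, ?_, ?_, hP.breaker k⟩
  · rw [hD3]; exact subset_union_left
  · rw [hD4]; exact hD1
  · rw [hD4]; exact hD2

/-- For every `c > 2` and all large `N`, Breaker can prevent Maker from owning a `q × q`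
parallelogram lattice, `q = ⌊c √(log₂ N)⌋`, in the (2:2) game on `[N]²`.  Moreover this holds for
every `N ≥ 1` and every `q ≥ 2 √(log₂ N) + 3000 (log₂ N)^(1/4) + 10^11`. -/
theorem result :
    (∀ c : ℝ, 2 < c → ∃ N₀ : ℕ, ∀ N : ℕ, N₀ ≤ N →
      BreakerPrevents (board N)
        {L | IsParallelogramLattice ⌊c * Real.sqrt (Real.logb 2 (N : ℝ))⌋₊ L}) ∧
    (∀ N q : ℕ, 1 ≤ N →
      2 * Real.sqrt (Real.logb 2 (N : ℝ)) +
        3000 * Real.sqrt (Real.sqrt (Real.logb 2 (N : ℝ))) + 10 ^ 11 ≤ (q : ℝ) →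
      BreakerPrevents (board N) {L | IsParallelogramLattice q L}) := by
  refine ⟨fun c hc => ?_, prevents⟩
  obtain ⟨N0, hN0⟩ := Pool.Agent.Helper83.L4.eventually_q 2 c hc
  exact ⟨N0, fun N hN => prevents N _ (hN0 N hN).1 (hN0 N hN).2⟩

end Pool.Agent.Results.MP_d62fe1_co.ParallelogramLattices
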